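import Pool.Agent.N659.HB.Stm3
import Pool.Agent.N163.HB.Gapa

/-!
# KS/GAPG: the gap, general law and kinetic energy

For `MP_28b024_mp` (project KS of helper659), after the proof of helper163 for fair signs.
-/

set_option autoImplicit false

namespace Pool.Agent.N457.KS.Gapg

open MeasureTheory Filter Pool.Agent.W792.LL Pool.Agent.W792.WA Pool.Agent.N659.HB
open Pool.Agent.N163.HB.GAPA
open scoped Topology ENNReal

noncomputable section

/-- The variance of the Cayley transform is positive if the second moment is. -/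
theorem vr_pos (hCay : S_CAY) (ν : Measure ℝ) [IsProbabilityMeasure ν] {α : ℝ}
    (hm : ∫ x, x ∂ν = 0) (h2 : 0 < ∫ x, (x / α) ^ 2 ∂ν) : 0 < vr ν := by
  have hb : ∀ᵐ x ∂ν, ‖cay x‖ ≤ 1 := ae_of_all _ fun x => (hCay.1 x).le
  rcases ae_eq_const_or_norm_average_lt_of_norm_le_const hb with h1 | h1
  · exfalso
    obtain ⟨a, ha⟩ := h1.exists
    have h3 : ∀ᵐ x ∂ν, x = a := by
      filter_upwards [h1] with x hx
      have h3 : cay x = cay a := hx.trans ha.symm
      unfold cay at h3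
      have n1 : (x : ℂ) - Complex.I ≠ 0 := by
        intro h0
        have := congrArg Complex.im h0
        simp at this
      have n2 : (a : ℂ) - Complex.I ≠ 0 := by
        intro h0
        have := congrArg Complex.im h0
        simp at this
      rw [div_eq_div_iff n1 n2] at h3
      have h4 : 2 * Complex.I * ((a : ℂ) - x) = 0 := by linear_combination h3
      have h5 : (a : ℂ) - x = 0 := by
        rcases mul_eq_zero.1 h4 with h6 | h6
        · exfalso
          have := congrArg Complex.im h6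
          simp at this
        · exact h6
      have h6 : (a : ℂ) = x := by linear_combination h5
      exact_mod_cast h6.symm
    have h4 : ∫ x, x ∂ν = a := by
      rw [integral_congr_ae (g := fun _ => a) h3, integral_const, probReal_univ, one_smul]
    have h5 : a = 0 := h4.symm.trans hm
    have h6 : ∫ x, (x / α) ^ 2 ∂ν = 0 := by
      rw [integral_congr_ae (g := fun _ => (0 : ℝ)) ?_, integral_zero]
      filter_upwards [h3] with x hx
      rw [hx, h5]
      simp
    rw [h6] at h2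
    exact lt_irrefl _ h2
  · rw [average_eq_integral] at h1
    unfold vr
    have h3 : ‖∫ x, cay x ∂ν‖ ^ 2 < 1 := by
      have := norm_nonneg (∫ x, cay x ∂ν)
      nlinarith
    linarith

/-! ### Pointwise estimates -/

theorem wl_bound' {r y S0 β : ℝ} (hS : |S0| ≤ r / 16) (h1 : β ≤ 2 / r)
    (h2 : 2 * r ≤ |y + S0| → β ≤ 3 / |y + S0|) (hr : 0 < r) : β ≤ wl r y := by
  unfold wl
  split_ifs with h
  · exact h1
  · push Not at h
    have h3 : |y| - |S0| ≤ |y + S0| := by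
      have := abs_sub_abs_le_abs_sub y (-S0)
      rwa [abs_neg, sub_neg_eq_add] at this
    have h5 : |y| / 2 ≤ |y + S0| := by linarith
    have h6 : 2 * r ≤ |y + S0| := by linarith
    have hy : 0 < |y| := by linarith
    calc β ≤ 3 / |y + S0| := h2 h6
      _ ≤ 3 / (|y| / 2) := div_le_div_of_nonneg_left (by norm_num) (by positivity) h5
      _ = 6 / |y| := by
          field_simp
          norm_num

/-! ### Integrals -/

theorem wl_intK {d : ℕ} {l : ℝ} (hl : 0 < l) (K : C(UnitAddTorus (Fin d), ℝ)) (E : ℝ) :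
    Integrable (fun k : UnitAddTorus (Fin d) => wl l (K k - E)) ∧
    Integrable (fun k : UnitAddTorus (Fin d) => wl l (K k - E) ^ 2) := by
  have hm : Measurable (fun k : UnitAddTorus (Fin d) => wl l (K k - E)) :=
    (wl_meas l).comp ((K.continuous.sub continuous_const).measurable)
  constructor
  · refine Integrable.of_bound hm.aestronglyMeasurable (2 / l) (ae_of_all _ fun k => ?_)
    rw [Real.norm_of_nonneg (wl_nonneg hl _)]
    exact wl_le hl _
  · refine Integrable.of_bound (hm.pow_const 2).aestronglyMeasurable ((2 / l) ^ 2)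
      (ae_of_all _ fun k => ?_)
    rw [Real.norm_of_nonneg (by positivity)]
    exact pow_le_pow_left₀ (wl_nonneg hl _) (wl_le hl _) 2

theorem int_part' {d : ℕ} {K : C(UnitAddTorus (Fin d), ℝ)} {α r b Λ c₀ E R : ℝ} (hα : 0 < α)
    (hr : 0 < r) (hb : 0 < b) (hR : 0 < R)
    {β q : UnitAddTorus (Fin d) → ℂ} (hβ : Continuous β) (hq : Continuous q)
    (h1 : ∀ k, ‖β k‖ ≤ wl r (K k - E)) (h2 : ∀ k, ‖q k‖ ≤ 2 * (α * ‖β k‖))
    (h3 : ∀ k, ‖q k - α * β k‖ ≤ 6 * b * (α * wl r (K k - E)) ^ 2)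
    (h4 : ∀ k, 0 ≤ (β k).im)
    (h5 : ∀ k, |K k - E| ≤ R → 1 / (180 * R) ≤ (β k).im)
    (hW1 : α * (∫ k : UnitAddTorus (Fin d), wl r (K k - E)) ≤ b / 2)
    (hW2 : α ^ 2 * (∫ k : UnitAddTorus (Fin d), wl r (K k - E) ^ 2) ≤ Λ)
    (hdos : c₀ * R ≤ α * dosK K E R) :
    (∀ k, ‖q k‖ ≤ 4 * α / r) ∧ (∫ k, ‖q k‖ ^ 2) ≤ 4 * Λ ∧ (∫ k, ‖q k‖) ≤ b ∧
      c₀ / 180 - 6 * b * Λ ≤ (∫ k, q k).im := by
  obtain ⟨hi1, hi2⟩ := wl_intK hr K E
  have h12 : ∀ k, ‖q k‖ ≤ (2 * α) * wl r (K k - E) := fun k =>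
    (h2 k).trans (by
      have := mul_le_mul_of_nonneg_left (h1 k) hα.le
      linarith)
  refine ⟨?_, ?_, ?_, ?_⟩
  · intro k
    refine (h12 k).trans ?_
    have := wl_le hr (K k - E)
    calc 2 * α * wl r (K k - E) ≤ 2 * α * (2 / r) :=
          mul_le_mul_of_nonneg_left this (by positivity)
      _ = 4 * α / r := by ring
  · calc (∫ k, ‖q k‖ ^ 2) ≤ ∫ k : UnitAddTorus (Fin d), (4 * α ^ 2) * wl r (K k - E) ^ 2 := by
          refine integral_mono (cont_int (hq.norm.pow 2)) (hi2.const_mul _) fun k => ?_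
          have := pow_le_pow_left₀ (norm_nonneg _) (h12 k) 2
          calc ‖q k‖ ^ 2 ≤ (2 * α * wl r (K k - E)) ^ 2 := this
            _ = 4 * α ^ 2 * wl r (K k - E) ^ 2 := by ring
      _ = 4 * α ^ 2 * ∫ k : UnitAddTorus (Fin d), wl r (K k - E) ^ 2 := integral_const_mul _ _
      _ ≤ 4 * Λ := by linarith
  · calc (∫ k, ‖q k‖) ≤ ∫ k : UnitAddTorus (Fin d), (2 * α) * wl r (K k - E) :=
          integral_mono (cont_int hq.norm) (hi1.const_mul _) h12
      _ = 2 * α * ∫ k : UnitAddTorus (Fin d), wl r (K k - E) := integral_const_mul _ _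
      _ ≤ b := by linarith
  · -- the main part
    have hiβ : Integrable (fun k => (α : ℂ) * β k) := cont_int (continuous_const.mul hβ)
    have hiq : Integrable q := cont_int hq
    have hi3 : Integrable (fun k : UnitAddTorus (Fin d) =>
        6 * b * (α * wl r (K k - E)) ^ 2) := by
      have := hi2.const_mul (6 * b * α ^ 2)
      refine this.congr (ae_of_all _ fun k => ?_)
      show 6 * b * α ^ 2 * wl r (K k - E) ^ 2 = 6 * b * (α * wl r (K k - E)) ^ 2
      ring
    have e1 : ‖(∫ k, q k) - ∫ k, (α : ℂ) * β k‖ ≤ 6 * b * Λ := by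
      rw [← integral_sub hiq hiβ]
      calc ‖∫ k, (q k - (α : ℂ) * β k)‖ ≤ ∫ k, ‖q k - (α : ℂ) * β k‖ :=
            norm_integral_le_integral_norm _
        _ ≤ ∫ k : UnitAddTorus (Fin d), 6 * b * (α * wl r (K k - E)) ^ 2 :=
            integral_mono (hiq.sub hiβ).norm hi3 h3
        _ = ∫ k : UnitAddTorus (Fin d), (6 * b * α ^ 2) * wl r (K k - E) ^ 2 := by
            congr 1
            funext k
            ring
        _ = 6 * b * α ^ 2 * ∫ k : UnitAddTorus (Fin d), wl r (K k - E) ^ 2 :=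
            integral_const_mul _ _
        _ = 6 * b * (α ^ 2 * ∫ k : UnitAddTorus (Fin d), wl r (K k - E) ^ 2) := by ring
        _ ≤ 6 * b * Λ := mul_le_mul_of_nonneg_left hW2 (by positivity)
    have e2 : (∫ k, (α : ℂ) * β k).im = ∫ k, α * (β k).im := by
      have := (Complex.imCLM.integral_comp_comm hiβ).symm
      simp only [Complex.imCLM_apply] at this
      rw [this]
      congr 1
      funext k
      simp [Complex.mul_im]
    have hT : MeasurableSet {k : UnitAddTorus (Fin d) | |K k - E| ≤ R} :=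
      (isClosed_le (K.continuous.sub continuous_const).abs continuous_const).measurableSet
    have e3 : α * (1 / (180 * R)) * dosK K E R ≤ ∫ k, α * (β k).im := by
      have hc : ∫ k, Set.indicator {k : UnitAddTorus (Fin d) | |K k - E| ≤ R}
          (fun _ => α * (1 / (180 * R))) k = α * (1 / (180 * R)) * dosK K E R := by
        rw [integral_indicator_const _ hT, smul_eq_mul, mul_comm]
        rfl
      rw [← hc]
      refine integral_mono ((integrable_const _).indicator hT)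
        (cont_int (continuous_const.mul (Complex.continuous_im.comp hβ))) fun k => ?_
      by_cases hk : k ∈ {k : UnitAddTorus (Fin d) | |K k - E| ≤ R}
      · rw [Set.indicator_of_mem hk]
        exact mul_le_mul_of_nonneg_left (h5 k hk) hα.le
      · rw [Set.indicator_of_notMem hk]
        exact mul_nonneg hα.le (h4 k)
    have e4 : c₀ / 180 ≤ α * (1 / (180 * R)) * dosK K E R := by
      calc c₀ / 180 = (1 / (180 * R)) * (c₀ * R) := by
            field_simp
        _ ≤ (1 / (180 * R)) * (α * dosK K E R) :=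
            mul_le_mul_of_nonneg_left hdos (by positivity)
        _ = _ := by ring
    have e5 : (∫ k, q k).im = (∫ k, (α : ℂ) * β k).im +
        ((∫ k, q k) - ∫ k, (α : ℂ) * β k).im := by
      rw [Complex.sub_im]
      ring
    have e6 := (abs_le.1 (Complex.abs_im_le_norm ((∫ k, q k) - ∫ k, (α : ℂ) * β k))).1
    rw [e5, e2]
    linarith

/-! ### The theorem -/

/-- one momentum -/
theorem one_k' (hL : S_LV) (hU : S_UX) {ψ : C(UnitAddCircle, ℝ)} (hψ : IsSemi ψ)
    {α r b η D R : ℝ} (hr : 0 < r) (hη : 0 < η) (h48 : 48 * α * b ≤ r)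
    (ρ' : Measure ℝ) [IsProbabilityMeasure ρ']
    (hρ' : ρ' (Set.Icc (-(r / 8)) (r / 8))ᶜ = 0) {x S : ℂ} {y : ℝ} (hx : x.re = y)
    (hx1 : x.im < 0) (hR1 : r / 4 ≤ R) (hR2 : -x.im ≤ R) (hR3 : R = r / 4 ∨ R = -x.im)
    (hS : ‖S‖ ≤ 3 * α * b) (hS2 : S.im ≤ -η)
    (hD : ‖x + S‖ + 2 * r ≤ D) :
    bet ((lev ψ r).conv ρ') (x + S) ≠ 0 ∧
    Us ((lev ψ r).conv ρ') (cayx x) (cayx S 0) =
      cayx (1 / bet ((lev ψ r).conv ρ') (x + S) - S) 0 ∧
    (1 / bet ((lev ψ r).conv ρ') (x + S) - S).im ≤ -(η ^ 3 * r ^ 2 / (4 * D ^ 4)) ∧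
    ‖bet ((lev ψ r).conv ρ') (x + S)‖ ≤ wl r y ∧
    ‖bet ((lev ψ r).conv ρ') (x + S) * S‖ ≤ 1 / 8 ∧
    ‖bet ((lev ψ r).conv ρ') (x + S) * S‖ ≤
      3 * b * (α * ‖bet ((lev ψ r).conv ρ') (x + S)‖) ∧
    0 ≤ (bet ((lev ψ r).conv ρ') (x + S)).im ∧
    (|y| ≤ R → 1 / (180 * R) ≤ (bet ((lev ψ r).conv ρ') (x + S)).im) := by
  have hprob : IsProbabilityMeasure (lev ψ r) := lev_prob ψ _
  have hsupp : ((lev ψ r).conv ρ') (Set.Icc (-(r + r / 8)) (r + r / 8))ᶜ = 0 :=
    conv_supp _ _ (lev_supp hψ hr) hρ'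
  have him : (x + S).im ≤ -η := by rw [Complex.add_im]; linarith
  have him' : (x + S).im < 0 := by linarith
  obtain ⟨l1, l2, l3, l4, l5, -⟩ := hL ψ hψ r ρ' hr hρ' (x + S) him'
  obtain ⟨u1, u2, u3⟩ := hU ((lev ψ r).conv ρ') _ x S hsupp hx1 (by linarith)
  set β := bet ((lev ψ r).conv ρ') (x + S) with hβ
  have hDp : 0 < ‖x + S‖ + 2 * r := by positivity
  have hD0 : 0 < D := by linarith
  have hS16 : 3 * α * b ≤ r / 16 := by linarith
  have hSre : |S.re| ≤ r / 16 := ((Complex.abs_re_le_norm S).trans hS).trans hS16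
  have hSim : |S.im| ≤ r / 16 := ((Complex.abs_im_le_norm S).trans hS).trans hS16
  have hre : (x + S).re = y + S.re := by rw [Complex.add_re, hx]
  have hβim : η / D ^ 2 ≤ β.im := by
    refine le_trans ?_ l4
    apply div_le_div₀ (by linarith) (by linarith) (by positivity)
    exact pow_le_pow_left₀ hDp.le hD 2
  have hβn : η / D ^ 2 ≤ ‖β‖ := hβim.trans ((le_abs_self _).trans (Complex.abs_im_le_norm β))
  refine ⟨u1, u3, ?_, ?_, ?_, ?_, ?_, ?_⟩
  · rw [Complex.sub_im]
    have h1 : (η / D ^ 2) ^ 2 ≤ ‖β‖ ^ 2 := pow_le_pow_left₀ (by positivity) hβn 2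
    rw [Complex.add_im] at l5
    have h2 : 0 ≤ r ^ 2 / 4 * ‖β‖ ^ 2 := by positivity
    have h3 : η * (r ^ 2 / 4 * (η / D ^ 2) ^ 2) ≤ -S.im * (r ^ 2 / 4 * ‖β‖ ^ 2) := by
      apply mul_le_mul (by linarith) _ (by positivity) (by linarith)
      exact mul_le_mul_of_nonneg_left h1 (by positivity)
    have h4 : 0 ≤ -x.im * (1 + r ^ 2 / 4 * ‖β‖ ^ 2) := mul_nonneg (by linarith) (by linarith)
    have h5 : η ^ 3 * r ^ 2 / (4 * D ^ 4) = η * (r ^ 2 / 4 * (η / D ^ 2) ^ 2) := by
      field_simp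
    rw [h5]
    have h6 : -(x.im + S.im) * (1 + r ^ 2 / 4 * ‖β‖ ^ 2) =
        -x.im * (1 + r ^ 2 / 4 * ‖β‖ ^ 2) + -S.im +
          -S.im * (r ^ 2 / 4 * ‖β‖ ^ 2) := by ring
    rw [h6] at l5
    linarith
  · refine wl_bound' hSre l1 ?_ hr
    rw [← hre]
    exact l2
  · rw [norm_mul]
    calc ‖β‖ * ‖S‖ ≤ (2 / r) * (r / 16) :=
          mul_le_mul l1 (hS.trans hS16) (norm_nonneg _) (by positivity)
      _ = 1 / 8 := by
          field_simp
          norm_num
  · rw [norm_mul]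
    calc ‖β‖ * ‖S‖ ≤ ‖β‖ * (3 * α * b) := mul_le_mul_of_nonneg_left hS (norm_nonneg _)
      _ = 3 * b * (α * ‖β‖) := by ring
  · exact le_trans (by positivity) hβim
  · intro hy
    have hR0 : 0 < R := by linarith
    have g1 := abs_le.1 hSre
    have g2 := abs_le.1 hSim
    have g3 := abs_le.1 hy
    rcases hR3 with hR | hR
    · -- small imaginary part
      have h1 : 2 / (5 * r) ≤ β.im := by
        refine l3 ?_ ?_
        · rw [hre, abs_le]
          constructor <;> linarith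
        · rw [Complex.add_im]
          linarith
      refine le_trans ?_ h1
      rw [hR, div_le_div_iff₀ (by positivity) (by positivity)]
      linarith
    · -- large imaginary part
      refine le_trans ?_ l4
      have h2 : ‖x + S‖ ≤ 5 / 2 * R := by
        refine (Complex.norm_le_abs_re_add_abs_im _).trans ?_
        have h3 : |(x + S).re| ≤ 5 / 4 * R := by
          rw [hre, abs_le]
          constructor <;> linarith
        have h4 : |(x + S).im| ≤ 5 / 4 * R := by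
          rw [Complex.add_im, abs_le]
          constructor <;> linarith
        linarith
      have h5 : ‖x + S‖ + 2 * r ≤ 21 / 2 * R := by linarith
      have h6 : R ≤ -(x + S).im := by rw [Complex.add_im]; linarith
      have h7 : (‖x + S‖ + 2 * r) ^ 2 ≤ (21 / 2 * R) ^ 2 := pow_le_pow_left₀ hDp.le h5 2
      calc 1 / (180 * R) ≤ R / (21 / 2 * R) ^ 2 := by
            rw [div_le_div_iff₀ (by positivity) (by positivity)]
            nlinarith [sq_nonneg R]
        _ ≤ -(x + S).im / (‖x + S‖ + 2 * r) ^ 2 :=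
            div_le_div₀ (by linarith) h6 (by positivity) h7

theorem main : S_ZR → S_SEG → S_LV → S_UX → S_CX → S_UUC → S_FIX → S_CAY → S_GAPG := by
  intro hZR hSE hLV hUX hCX _ hFIX hCAY ψ hψ ν _ d n K α r b κ s₂ c₀ Λ D₀ hN hνα hm h2 hW
  have hα0 := hN.hα
  have hr := hN.hr
  have hb := hN.hb
  have hκ := hN.hκ
  have hs' := hN.hs
  have hs1 := hN.hs1
  have hc := hN.hc
  have hD0 := hN.hD
  have hη : 0 < etaG α s₂ c₀ := by unfold etaG; positivity
  have heta : etaG α s₂ c₀ = α * s₂ * c₀ / 360 := rfl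
  have hsc : s₂ * c₀ ≤ b := by
    calc s₂ * c₀ ≤ 1 * c₀ := mul_le_mul_of_nonneg_right hs1 hc.le
      _ = c₀ := one_mul _
      _ ≤ b := hN.e7
  have hηR : etaG α s₂ c₀ ≤ 3 * α * b := by
    rw [heta]
    have h1 : α * (s₂ * c₀) ≤ α * b := mul_le_mul_of_nonneg_left hsc hα0.le
    have h3 : 0 < α * b := by positivity
    linarith
  obtain ⟨zr1, zr2, zr3, zr4⟩ := hZR d (3 * α * b) (etaG α s₂ c₀) hη hηR
  have hσ : 0 < 2 * etaG α s₂ c₀ / (3 * α * b + 1) ^ 2 := by positivity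
  refine ⟨2 * etaG α s₂ c₀ / (3 * α * b + 1) ^ 2, hσ, ?_⟩
  intro ρ' _ hρ' z hz s hs0
  suffices h : s ∈ ZR d (3 * α * b) (etaG α s₂ c₀) from (zr3 s h).1
  obtain ⟨hz1, hz2, hz3, hz4⟩ := hz
  have hprob : IsProbabilityMeasure (lev ψ r) := lev_prob ψ _
  have hsupp : ((lev ψ r).conv ρ')
      (Set.Icc (-(r + r / 8)) (r + r / 8))ᶜ = 0 :=
    conv_supp _ _ (lev_supp hψ hr) hρ'
  obtain ⟨q0, hq0, hq1, hq⟩ := hCX.2.2.1 (r + r / 8) (‖K‖ + ‖z‖) z.im hz3
  refine (hFIX ν d ((lev ψ r).conv ρ') (r + r / 8) q0 (wz K z)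
    (vr_pos hCAY ν hm (by rw [h2]; exact hs')) hsupp (hCX.2.2.2 d K z hz3.le) hq0 hq1 ?_).2.2
    (ZR d (3 * α * b) (etaG α s₂ c₀)) zr1 zr2 (fun s hs => hs.1) ?_ s hs0
  · intro k a ha
    refine hq _ a ?_ ?_ (abs_le.2 ha)
    · refine (norm_sub_le _ _).trans ?_
      rw [Complex.norm_real]
      linarith [K.norm_coe_le_norm k]
    · simp
  clear hs0 s
  intro s hs
  obtain ⟨-, S, hS⟩ := zr3 s hs
  -- the energy
  obtain ⟨hWD, hW1, hW2, hdos⟩ := hW z.re hz1 hz2
  obtain ⟨R, hR1, hR2, hR3, hR4⟩ : ∃ R : ℝ, r / 4 ≤ R ∧ z.im ≤ R ∧ (R = r / 4 ∨ R = z.im) ∧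
      (R ≤ 1 ∨ R = r / 4) := by
    rcases le_total z.im (r / 4) with h | h
    · exact ⟨r / 4, le_rfl, h, Or.inl rfl, Or.inr rfl⟩
    · exact ⟨z.im, h, le_rfl, Or.inr rfl, Or.inl hz4⟩
  -- one momentum
  obtain ⟨D, hD⟩ : ∃ D : ℝ, D = D₀ + 1 + 3 * α * b + 2 * r := ⟨_, rfl⟩
  have hxre : ∀ k, ((K k : ℂ) - z).re = K k - z.re := by
    intro k
    rw [Complex.sub_re, Complex.ofReal_re]
  have hxim : ∀ k, ((K k : ℂ) - z).im = -z.im := by
    intro k
    rw [Complex.sub_im, Complex.ofReal_im]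
    ring
  have hxD : ∀ k, ‖((K k : ℂ) - z) + S k‖ + 2 * r ≤ D := by
    intro k
    have h1 := norm_add_le ((K k : ℂ) - z) (S k)
    have h3 := Complex.norm_le_abs_re_add_abs_im ((K k : ℂ) - z)
    rw [hxre, hxim, abs_neg, abs_of_pos hz3] at h3
    have h4 := hWD k
    have h5 := (hS k).2.1
    rw [hD]
    linarith
  have hone := fun k => one_k' (R := R) hLV hUX hψ hr hη hN.e2 ρ' hρ'
    (hxre k) (by rw [hxim]; linarith) hR1 (by rw [hxim, neg_neg]; exact hR2)
    (by rw [hxim, neg_neg]; exact hR3) (hS k).2.1 (hS k).2.2 (hxD k)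
  -- continuity
  have hKc : Continuous fun k => ((K k : ℂ) - z) :=
    (Complex.continuous_ofReal.comp K.continuous).sub continuous_const
  have htc : Continuous fun k => ((K k : ℂ) - z) + S k := hKc.add S.continuous
  have hβc : Continuous fun k => bet ((lev ψ r).conv ρ') (((K k : ℂ) - z) + S k) := by
    have hle : ∀ k k', dist (bet ((lev ψ r).conv ρ') (((K k : ℂ) - z) + S k))
        (bet ((lev ψ r).conv ρ') (((K k' : ℂ) - z) + S k')) ≤
        dist (((K k : ℂ) - z) + S k) (((K k' : ℂ) - z) + S k') / (etaG α s₂ c₀) ^ 2 := by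
      intro k k'
      have hi : ∀ k, (((K k : ℂ) - z) + S k).im ≤ -etaG α s₂ c₀ := by
        intro k
        rw [Complex.add_im, hxim]
        linarith [(hS k).2.2]
      have h1 := (hLV ψ hψ r ρ' hr hρ' (((K k : ℂ) - z) + S k)
        (by linarith [hi k])).2.2.2.2.2 (((K k' : ℂ) - z) + S k') (by linarith [hi k'])
      rw [dist_eq_norm, dist_eq_norm]
      refine h1.trans ?_
      apply div_le_div_of_nonneg_left (norm_nonneg _) (by positivity)
      have h3 := hi k
      have h4 := hi k'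
      nlinarith
    rw [continuous_iff_continuousAt]
    intro k0
    rw [ContinuousAt, tendsto_iff_dist_tendsto_zero]
    refine squeeze_zero (fun k => dist_nonneg) (fun k => hle k k0) ?_
    have h3 : Tendsto (fun k => dist (((K k : ℂ) - z) + S k) (((K k0 : ℂ) - z) + S k0))
        (𝓝 k0) (𝓝 0) := tendsto_iff_dist_tendsto_zero.1 (htc.tendsto k0)
    simpa using h3.div_const ((etaG α s₂ c₀) ^ 2)
  have hXc : Continuous fun k =>
      1 / bet ((lev ψ r).conv ρ') (((K k : ℂ) - z) + S k) - S k :=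
    (continuous_const.div hβc fun k => (hone k).1).sub S.continuous
  obtain ⟨X, hX⟩ : ∃ X : C(UnitAddTorus (Fin d), ℂ), ∀ k, X k =
      1 / bet ((lev ψ r).conv ρ') (((K k : ℂ) - z) + S k) - S k :=
    ⟨⟨_, hXc⟩, fun k => rfl⟩
  have hUUX : UU ((lev ψ r).conv ρ') (wz K z) s = toC fun k => cayx (X k) 0 := by
    unfold UU
    congr 1
    funext k
    rw [hX k, (hS k).1]
    exact (hone k).2.1
  have hcpos : 0 < cG α r b s₂ c₀ D₀ := by
    unfold cG
    positivity
  have hcval : cG α r b s₂ c₀ D₀ = etaG α s₂ c₀ ^ 3 * r ^ 2 / (4 * D ^ 4) := by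
    unfold cG
    rw [← hD]
  have hXim : ∀ k, (X k).im ≤ -cG α r b s₂ c₀ D₀ := by
    intro k
    rw [hX, hcval]
    exact (hone k).2.2.1
  -- the integrals
  have hqc : Continuous fun k => (α : ℂ) / X k := by
    refine continuous_const.div X.continuous fun k h0 => ?_
    have := hXim k
    rw [h0, Complex.zero_im] at this
    linarith
  have hqb := fun k => q_bound (S := S k) hα0 (hone k).1 (hone k).2.2.2.2.1
  obtain ⟨i1, i2, i3, i4⟩ := int_part' (K := K) (E := z.re) (R := R) (c₀ := c₀)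
    (q := fun k => (α : ℂ) / X k) hα0 hr hb (by linarith) hβc hqc
    (fun k => (hone k).2.2.2.1) (fun k => by
      show ‖(α : ℂ) / X k‖ ≤ _
      rw [hX k]
      exact (hqb k).1)
    (fun k => by
      show ‖(α : ℂ) / X k - _‖ ≤ _
      rw [hX k]
      refine (hqb k).2.trans ?_
      have h1 := (hone k).2.2.2.1
      have h3 := (hone k).2.2.2.2.2.1
      have h4 : 0 ≤ α * ‖bet ((lev ψ r).conv ρ') (((K k : ℂ) - z) + S k)‖ := by
        positivity
      calc _ ≤ 2 * (α * ‖bet ((lev ψ r).conv ρ') (((K k : ℂ) - z) + S k)‖) *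
            (3 * b * (α * ‖bet ((lev ψ r).conv ρ') (((K k : ℂ) - z) + S k)‖)) :=
            mul_le_mul_of_nonneg_left h3 (by positivity)
        _ = 6 * b * (α * ‖bet ((lev ψ r).conv ρ') (((K k : ℂ) - z) + S k)‖) ^ 2 := by
            ring
        _ ≤ 6 * b * (α * wl r (K k - z.re)) ^ 2 :=
            mul_le_mul_of_nonneg_left (pow_le_pow_left₀ h4
              (mul_le_mul_of_nonneg_left h1 hα0.le) 2) (by positivity))
    (fun k => (hone k).2.2.2.2.2.2.1) (fun k hk => (hone k).2.2.2.2.2.2.2 hk)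
    hW1 hW2 (hdos R hR1 hR4)
  -- the self-energy
  obtain ⟨S', hS'1, hS'2, hS'3⟩ := hSE ν d n α (cG α r b s₂ c₀ D₀) (4 * α / r) (4 * Λ) b κ X hα0
    hνα hm hcpos hXim hN.hn hb hκ.le i1 i2 i3 hN.e1 hN.e2' hN.κ2 hN.e3 hN.e4 hN.e8
  rw [h2] at hS'3
  have hαb : 0 < α * b := by positivity
  have hS'n : ∀ k, ‖S' k‖ ≤ 3 * α * b := by
    intro k
    have h1 : ‖(α : ℂ) * ((s₂ : ℝ) : ℂ) * ∫ p, (α : ℂ) / X p‖ ≤ α * b := by
      rw [norm_mul, norm_mul, Complex.norm_real, Complex.norm_real, Real.norm_of_nonneg hα0.le,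
        Real.norm_of_nonneg hs'.le]
      have h3 : ‖∫ p, (α : ℂ) / X p‖ ≤ b := (norm_integral_le_integral_norm _).trans i3
      calc α * s₂ * ‖∫ p, (α : ℂ) / X p‖ ≤ α * 1 * b :=
            mul_le_mul (mul_le_mul_of_nonneg_left hs1 hα0.le) h3 (norm_nonneg _) (by positivity)
        _ = α * b := by ring
    have h3 := norm_sub_le (S' k + (α : ℂ) * ((s₂ : ℝ) : ℂ) * ∫ p, (α : ℂ) / X p)
      ((α : ℂ) * ((s₂ : ℝ) : ℂ) * ∫ p, (α : ℂ) / X p)
    rw [add_sub_cancel_right] at h3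
    have h4 : 50 * α * b * κ ≤ α * b := by
      calc 50 * α * b * κ = (50 * κ) * (α * b) := by ring
        _ ≤ 1 * (α * b) := mul_le_mul_of_nonneg_right (by linarith [hN.e3]) hαb.le
        _ = α * b := one_mul _
    have h5 := hS'3 k
    linarith
  have hS'im : ∀ k, (S' k).im ≤ -etaG α s₂ c₀ := by
    intro k
    have h1 := (abs_le.1 ((Complex.abs_im_le_norm _).trans (hS'3 k))).2
    rw [Complex.add_im] at h1
    have h3 : ((α : ℂ) * ((s₂ : ℝ) : ℂ) * ∫ p, (α : ℂ) / X p).im =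
        (α * s₂) * (∫ p, (α : ℂ) / X p).im := by
      rw [← Complex.ofReal_mul, Complex.im_ofReal_mul]
    rw [h3] at h1
    have hαs : 0 < α * s₂ := by positivity
    have h4 := mul_le_mul_of_nonneg_left i4 hαs.le
    have h5 : 50 * α * b * κ ≤ α * (s₂ * c₀ / 720) := by
      calc 50 * α * b * κ = α * (50 * b * κ) := by ring
        _ ≤ α * (s₂ * c₀ / 720) := mul_le_mul_of_nonneg_left hN.e5 hα0.le
    have h6 : (α * s₂) * (6 * b * Λ) ≤ (α * s₂) * (c₀ / 720) :=
      mul_le_mul_of_nonneg_left hN.e6 hαs.le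
    rw [heta]
    rw [mul_sub] at h4
    have h7 : (α * s₂) * (c₀ / 180) = 4 * (α * s₂ * c₀ / 720) := by ring
    have h8 : (α * s₂) * (c₀ / 720) = α * s₂ * c₀ / 720 := by ring
    have h9 : α * (s₂ * c₀ / 720) = α * s₂ * c₀ / 720 := by ring
    have h10 : α * s₂ * c₀ / 360 = 2 * (α * s₂ * c₀ / 720) := by ring
    rw [h7] at h4
    rw [h8] at h6
    rw [h9] at h5
    rw [h10]
    linarith
  rw [hUUX]
  exact zr4 _ S' fun k => ⟨hS'2 k, hS'n k, hS'im k⟩

end

end Pool.Agent.N457.KS.Gapg
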